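import Pool.Agent.R105.GD.Tri

set_option autoImplicit false

/-! The gcd recursion: periodicity in `N` and the place of the last jump. -/

namespace Pool.Agent.Helper82K9.GR

open Finset Pool.Agent.Results.MP_3f8e47_nt.LongLife Pool.Agent.R105.GD

/-- the gcd at the step `n` -/
noncomputable def G (N n : ℕ) : ℕ := Int.gcd (aa N (n - 1)) ((n + b n : ℕ) : ℤ)

lemma aa_G (N n : ℕ) (hn : 2 ≤ n) : aa N n = aa N (n - 1) - G N n := aa_rec N n hn

lemma per (N M t T : ℕ) (hM : ∀ k, 2 ≤ k → k ≤ T → (k + b k) ∣ M) (n : ℕ) (hn : 1 ≤ n) :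
    n ≤ T → aa (N + M * t) n = aa N n + M * t := by
  induction n, hn using Nat.le_induction with
  | base =>
    intro _
    rw [aa_one, aa_one]
    push_cast
    ring
  | succ n hn ih =>
    intro hT
    have h1 := ih (by omega)
    rw [aa_rec _ (n + 1) (by omega), aa_rec N (n + 1) (by omega), Nat.add_sub_cancel, h1]
    obtain ⟨c, hc⟩ := hM (n + 1) (by omega) hT
    have e : aa N n + M * t = aa N n + (c * t : ℤ) * ((n + 1 + b (n + 1) : ℕ) : ℤ) := by
      rw [hc]; push_cast; ring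
    rw [e, Int.gcd_add_mul_right_left]
    linarith

lemma G_pos (N n : ℕ) : 1 ≤ G N n ∨ (n + b n = 0) := by
  unfold G
  rcases Nat.eq_zero_or_pos (Int.gcd (aa N (n - 1)) ((n + b n : ℕ) : ℤ)) with h | h
  · right
    rw [Int.gcd_eq_zero_iff] at h
    exact_mod_cast h.2
  · left; exact h

/-- no jumps between `m` and `n` -/
lemma flat (N m n : ℕ) (hm : 1 ≤ m) (hmn : m ≤ n) (h : ∀ k, m < k → k ≤ n → G N k = 1) :
    aa N m = aa N n + (n - m : ℕ) := by
  induction n, hmn using Nat.le_induction with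
  | base => simp
  | succ n hmn ih =>
    have h1 := ih (fun k hk1 hk2 => h k hk1 (by omega))
    have h2 := aa_G N (n + 1) (by omega)
    rw [h (n + 1) (by omega) le_rfl, Nat.add_sub_cancel] at h2
    rw [h1, h2]
    push_cast [Nat.cast_sub hmn, Nat.cast_sub (show m ≤ n + 1 by omega)]
    ring

/-- the waiting time -/
lemma wait (N m n : ℕ) (hm : 1 ≤ m) (hmn : m < n) (hG : 2 ≤ G N n) (h : ∀ k, m < k → k < n → G N k = 1) :
    n ≤ m + 3 * G N n := by
  by_contra hcon
  push Not at hcon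
  obtain ⟨p, hp, hpG⟩ := Nat.exists_prime_and_dvd (show G N n ≠ 1 by omega)
  have hple : p ≤ G N n := Nat.le_of_dvd (by omega) hpG
  set n' := n - 3 * p with hn'
  have hn'm : m < n' := by omega
  have hn'2 : n = n' + 3 * p := by omega
  have h1 := h n' hn'm (by have := hp.pos; omega)
  have h2 := flat N (n' - 1) (n - 1) (by omega) (by omega) (fun k hk1 hk2 => h k (by omega) (by omega))
  have h3 : (p : ℤ) ∣ aa N (n - 1) :=
    (Int.natCast_dvd_natCast.2 hpG).trans (Int.gcd_dvd_left (a := aa N (n - 1)) (b := ((n + b n : ℕ) : ℤ)))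
  have h4 : (p : ℤ) ∣ ((n + b n : ℕ) : ℤ) :=
    (Int.natCast_dvd_natCast.2 hpG).trans (Int.gcd_dvd_right (a := aa N (n - 1)) (b := ((n + b n : ℕ) : ℤ)))
  have h5 : (p : ℤ) ∣ aa N (n' - 1) := by
    rw [h2]
    have : n - 1 - (n' - 1) = 3 * p := by omega
    rw [this]
    exact dvd_add h3 ⟨3, by push_cast; ring⟩
  have h6 : (p : ℤ) ∣ ((n' + b n' : ℕ) : ℤ) := by
    have e : b n = b n' := by rw [hn'2, b_add]
    have e2 : ((n + b n : ℕ) : ℤ) = ((n' + b n' : ℕ) : ℤ) + p * 3 := by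
      rw [e, hn'2]; push_cast; ring
    rw [e2] at h4
    exact (Int.dvd_add_left (Dvd.intro _ rfl)).1 h4
  have h7 : p ∣ G N n' := by
    unfold G
    exact Int.dvd_gcd h5 h6
  rw [h1] at h7
  exact hp.one_lt.ne' (Nat.dvd_one.1 h7)

/-- the last jump comes early if the defect is small -/
lemma early (N : ℕ) (n : ℕ) (hn : 1 ≤ n) : ∃ m, 1 ≤ m ∧ m ≤ n ∧
    (m : ℤ) - 1 ≤ 6 * ((N : ℤ) - 5 - aa N n - n) ∧ ∀ k, m < k → k ≤ n → G N k = 1 := by
  induction n, hn using Nat.le_induction with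
  | base => exact ⟨1, le_rfl, le_rfl, by rw [aa_one]; push_cast; omega, fun k h1 h2 => by omega⟩
  | succ n hn ih =>
    obtain ⟨m, hm1, hm2, hm3, hm4⟩ := ih
    have h1 := aa_G N (n + 1) (by omega)
    rw [Nat.add_sub_cancel] at h1
    by_cases hG : G N (n + 1) = 1
    · refine ⟨m, hm1, by omega, ?_, fun k hk1 hk2 => ?_⟩
      · rw [h1, hG]; push_cast; linarith
      · rcases Nat.lt_or_ge n k with h | h
        · have : k = n + 1 := by omega
          rw [this]; exact hG
        · exact hm4 k hk1 h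
    · have hG2 : 2 ≤ G N (n + 1) := by
        rcases G_pos N (n + 1) with h | h <;> omega
      have h2 := wait N m (n + 1) hm1 (by omega) hG2 (fun k hk1 hk2 => hm4 k hk1 (by omega))
      refine ⟨n + 1, by omega, le_rfl, ?_, fun k hk1 hk2 => by omega⟩
      rw [h1]
      have h3 : ((n + 1 : ℕ) : ℤ) ≤ m + 3 * (G N (n + 1) : ℤ) := by exact_mod_cast h2
      have h4 : (2 : ℤ) ≤ (G N (n + 1) : ℤ) := by exact_mod_cast hG2
      push_cast at h3 ⊢
      linarith

/-- if the defect is small then `f(N)` is determined by the recursion at `T` -/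
lemma det (N H T : ℕ) (hN : 6 ≤ N) (hH : 1 ≤ H) (hf : N ≤ ff N + H) (hT : 6 * H ≤ T) (hTf : T ≤ ff N) :
    aa N T + T = ff N := by
  have hL := ff_isLeast N hN
  obtain ⟨⟨h1, h0⟩, -⟩ := hL
  obtain ⟨m, hm1, hm2, hm3, hm4⟩ := early N (ff N) h1
  rw [h0] at hm3
  have hmT : m ≤ T := by
    have : ((N : ℤ)) ≤ ff N + H := by exact_mod_cast hf
    have h6 : (6 * H : ℤ) ≤ T := by exact_mod_cast hT
    have : (m : ℤ) ≤ T := by linarith
    exact_mod_cast this
  have h2 := flat N T (ff N) (by omega) hTf (fun k hk1 hk2 => hm4 k (by omega) hk2)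
  rw [h2, h0]
  push_cast [Nat.cast_sub hTf]
  ring

end Pool.Agent.Helper82K9.GR
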