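import Pool.Agent.Helper82K9.GR.Gr1

set_option autoImplicit false

/-! Prime triples among the values of one progression. -/

namespace Pool.Agent.Helper82K9.GR

open Finset Filter Pool.Agent.Y851.DK

lemma sgM : ∃ K : ℝ, 0 ≤ K ∧ ∀ M T : ℕ, 6 ≤ T → (∀ p : ℕ, p.Prime → p ∣ M → p ≤ T) →
    sg M ≤ Real.log (Real.log T) + K := by
  obtain ⟨C, hC0, hC⟩ := Pool.Agent.Helper923.HMertens.mertens_ratio
  have hl2 : 0 < Real.log 2 := Real.log_pos (by norm_num)
  refine ⟨1 / 2 + |Real.log (Real.log 2)| + C / Real.log 2, by positivity, fun M T hT hM => ?_⟩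
  have h1 := hC 2 T le_rfl (by omega)
  have hTr : (6 : ℝ) ≤ T := by exact_mod_cast hT
  have hlT : 0 < Real.log T := Real.log_pos (by linarith)
  push_cast at h1
  rw [Real.log_div hlT.ne' hl2.ne'] at h1
  have h2 := (abs_le.1 h1).2
  have h3 : sg M ≤ 1 / 2 + ∑ p ∈ (Ioc 2 T).filter Nat.Prime, (1 : ℝ) / p := by
    unfold sg
    have hsub : M.primeFactors ⊆ insert 2 ((Ioc 2 T).filter Nat.Prime) := by
      intro p hp
      have hpp := Nat.prime_of_mem_primeFactors hp
      have hpd := Nat.dvd_of_mem_primeFactors hp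
      rw [mem_insert, mem_filter, mem_Ioc]
      have := hpp.two_le
      have := hM p hpp hpd
      by_cases h : p = 2
      · exact Or.inl h
      · exact Or.inr ⟨⟨by omega, by omega⟩, hpp⟩
    refine (sum_le_sum_of_subset_of_nonneg hsub (fun _ _ _ => by positivity)).trans ?_
    rw [sum_insert (by simp)]
    norm_num
  have h4 := neg_abs_le (Real.log (Real.log 2))
  linarith

open Classical in
theorem cls : ∃ C : ℝ, 1 ≤ C ∧ ∀ᶠ Y : ℝ in atTop, ∀ M T : ℕ, 1 ≤ M → 6 ≤ T →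
    (∀ p : ℕ, p.Prime → p ∣ M → p ≤ T) → ∀ u : ℤ,
    (((Icc 1 ⌊Y⌋₊).filter (fun n : ℕ => ((M : ℤ) * n + u + 1).toNat.Prime ∧ ((M : ℤ) * n + u + 3).toNat.Prime ∧
      ((M : ℤ) * n + u + 7).toNat.Prime)).card : ℝ) ≤ C * Real.log T ^ C * (Y / Real.log Y ^ 3) := by
  obtain ⟨K, hK0, hK⟩ := sgM
  obtain ⟨C, hC1, hC⟩ := Pool.Agent.Y949.DK.t_SV 3
  refine ⟨12 * C * Real.exp (12 * C * K), ?_, ?_⟩
  · have h1 : 1 ≤ Real.exp (12 * C * K) := Real.one_le_exp (by positivity)
    nlinarith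
  filter_upwards [hC, eventually_ge_atTop 2] with Y hY hY2 M T hM hT hMT u
  have hTr : (6 : ℝ) ≤ T := by exact_mod_cast hT
  have hl6 : 1 ≤ Real.log 6 := by
    rw [← Real.log_exp 1]
    apply Real.log_le_log (Real.exp_pos _)
    have := Real.exp_one_lt_d9
    linarith
  have hlT : 1 ≤ Real.log T := hl6.trans (Real.log_le_log (by norm_num) hTr)
  have hll : 0 ≤ Real.log (Real.log T) := Real.log_nonneg hlT
  have hMz : (M : ℤ) ≠ 0 := by exact_mod_cast (by omega : M ≠ 0)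
  set F : Finset (ℤ × ℤ) := {((M : ℤ), u + 1), ((M : ℤ), u + 3), ((M : ℤ), u + 7)} with hF
  have hFc : F.card = 3 := by
    rw [hF, card_eq_three]
    refine ⟨_, _, _, ?_, ?_, ?_, rfl⟩ <;> simp
  have hF1 : ∀ f ∈ F, f.1 = M ∧ (f.2 = u + 1 ∨ f.2 = u + 3 ∨ f.2 = u + 7) := by
    intro f hf
    rw [hF] at hf
    simp only [mem_insert, mem_singleton] at hf
    rcases hf with rfl | rfl | rfl <;> simp
  have hY' := hY F hFc (fun f hf => by rw [(hF1 f hf).1]; exact hMz) (fun f hf g hg hne => by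
    obtain ⟨a1, a2⟩ := hF1 f hf
    obtain ⟨b1, b2⟩ := hF1 g hg
    rw [a1, b1, ← mul_sub]
    refine mul_ne_zero hMz ?_
    intro h
    apply hne
    apply Prod.ext
    · rw [a1, b1]
    · omega)
  have hs1 : ∀ f ∈ F, sg f.1.natAbs ≤ Real.log (Real.log T) + K := by
    intro f hf
    rw [(hF1 f hf).1, Int.natAbs_natCast]
    exact hK M T hT hMT
  have hs2 : ∀ f ∈ F, ∀ g ∈ F, sg (f.1 * g.2 - g.1 * f.2).natAbs ≤ Real.log (Real.log T) + K := by
    intro f hf g hg
    obtain ⟨a1, a2⟩ := hF1 f hf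
    obtain ⟨b1, b2⟩ := hF1 g hg
    rw [a1, b1, ← mul_sub, Int.natAbs_mul, Int.natAbs_natCast]
    by_cases h0 : g.2 - f.2 = 0
    · rw [h0, Int.natAbs_zero, mul_zero]
      unfold sg
      simp only [Nat.primeFactors_zero, sum_empty]
      linarith
    · apply hK _ T hT
      intro p hp hpd
      rcases hp.dvd_mul.1 hpd with h | h
      · exact hMT p hp h
      · have h1 := Nat.le_of_dvd (by omega) h
        omega
  have hsum : ∑ f ∈ F, sg f.1.natAbs + ∑ f ∈ F, ∑ g ∈ F, sg (f.1 * g.2 - g.1 * f.2).natAbs ≤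
      12 * (Real.log (Real.log T) + K) := by
    have e1 : ∑ f ∈ F, sg f.1.natAbs ≤ ∑ _f ∈ F, (Real.log (Real.log T) + K) := sum_le_sum hs1
    have e2 : ∑ f ∈ F, ∑ g ∈ F, sg (f.1 * g.2 - g.1 * f.2).natAbs ≤
        ∑ _f ∈ F, ∑ _g ∈ F, (Real.log (Real.log T) + K) := sum_le_sum fun f hf => sum_le_sum fun g hg => hs2 f hf g hg
    rw [sum_const, hFc, nsmul_eq_mul] at e1
    rw [sum_const, sum_const, hFc, nsmul_eq_mul, nsmul_eq_mul] at e2
    push_cast at e1 e2
    linarith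
  have hlY : 0 < Real.log Y := Real.log_pos (by linarith)
  have hYY : 0 ≤ Y / Real.log Y ^ 3 := by positivity
  have hexp : Real.exp (C * (∑ f ∈ F, sg f.1.natAbs + ∑ f ∈ F, ∑ g ∈ F, sg (f.1 * g.2 - g.1 * f.2).natAbs)) ≤
      Real.exp (12 * C * K) * Real.log T ^ (12 * C) := by
    have e3 : Real.log T ^ (12 * C) = Real.exp (12 * C * Real.log (Real.log T)) := by
      rw [Real.rpow_def_of_pos (by linarith), mul_comm]
    rw [e3, ← Real.exp_add]
    apply Real.exp_le_exp.2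
    have := mul_le_mul_of_nonneg_left hsum (by linarith : (0 : ℝ) ≤ C)
    linarith
  have hpow : Real.log T ^ (12 * C) ≤ Real.log T ^ (12 * C * Real.exp (12 * C * K)) := by
    apply Real.rpow_le_rpow_of_exponent_le hlT
    have h1 : 1 ≤ Real.exp (12 * C * K) := Real.one_le_exp (by positivity)
    nlinarith
  have hp0 : 0 ≤ Real.log T ^ (12 * C * Real.exp (12 * C * K)) := Real.rpow_nonneg (by linarith) _
  have he0 : 0 < Real.exp (12 * C * K) := Real.exp_pos _
  refine le_trans ?_ (hY'.trans ?_)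
  · rw [Nat.cast_le]
    apply card_le_card
    intro n hn
    rw [mem_filter] at hn ⊢
    refine ⟨hn.1, fun f hf => ?_⟩
    obtain ⟨a1, a2⟩ := hF1 f hf
    rw [a1]
    rcases a2 with a2 | a2 | a2
    · rw [a2, ← add_assoc]; exact hn.2.1
    · rw [a2, ← add_assoc]; exact hn.2.2.1
    · rw [a2, ← add_assoc]; exact hn.2.2.2
  · apply mul_le_mul_of_nonneg_right _ hYY
    calc C * Real.exp (C * (∑ f ∈ F, sg f.1.natAbs + ∑ f ∈ F, ∑ g ∈ F, sg (f.1 * g.2 - g.1 * f.2).natAbs))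
        ≤ C * (Real.exp (12 * C * K) * Real.log T ^ (12 * C)) := mul_le_mul_of_nonneg_left hexp (by linarith)
      _ ≤ C * (Real.exp (12 * C * K) * Real.log T ^ (12 * C * Real.exp (12 * C * K))) := by
          apply mul_le_mul_of_nonneg_left _ (by linarith)
          exact mul_le_mul_of_nonneg_left hpow he0.le
      _ ≤ 12 * C * Real.exp (12 * C * K) * Real.log T ^ (12 * C * Real.exp (12 * C * K)) := by
          have : 0 ≤ C * (Real.exp (12 * C * K) * Real.log T ^ (12 * C * Real.exp (12 * C * K))) := by positivity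
          nlinarith

end Pool.Agent.Helper82K9.GR
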