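import Pool.Agent.Helper82K9.GR.Gr2

set_option autoImplicit false

/-! Small defects. -/

namespace Pool.Agent.Helper82K9.GR

open Finset Filter Pool.Agent.Results.MP_3f8e47_nt.LongLife Pool.Agent.R105.GD

lemma lcm_bd (T : ℕ) : Real.log (Nat.lcmUpto T) ≤ 6 * T := by
  rw [← Chebyshev.psi_eq_log_lcmUpto]
  refine (Chebyshev.psi_le_const_mul_self (Nat.cast_nonneg T)).trans ?_
  apply mul_le_mul_of_nonneg_right _ (Nat.cast_nonneg T)
  have h1 : Real.log 4 = 2 * Real.log 2 := by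
    rw [show (4 : ℝ) = 2 ^ 2 by norm_num, Real.log_pow]; norm_num
  have h2 := Real.log_two_lt_d9
  linarith

lemma b_le (k : ℕ) : b k ≤ 6 := by
  unfold b
  split_ifs <;> omega

/-- the classes -/
lemma incl (X H M T : ℕ) (hH : 3 ≤ H) (hT : T = 6 * H + 6) (hM : M = Nat.lcmUpto T) :
    (Icc 6 X).filter (fun N : ℕ => N ≤ ff N + H) ⊆ range (2100 + 7 * H) ∪
      (Icc 6 X).filter (fun N : ℕ =>
        ((M : ℤ) * ((N / M + 1 : ℕ) : ℤ) + (aa (N % M) (6 * H) + (6 * H : ℕ) - M) + 1).toNat.Prime ∧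
        ((M : ℤ) * ((N / M + 1 : ℕ) : ℤ) + (aa (N % M) (6 * H) + (6 * H : ℕ) - M) + 3).toNat.Prime ∧
        ((M : ℤ) * ((N / M + 1 : ℕ) : ℤ) + (aa (N % M) (6 * H) + (6 * H : ℕ) - M) + 7).toNat.Prime) := by
  intro N hN
  rw [mem_filter, mem_Icc] at hN
  rw [mem_union, mem_range]
  by_cases hs : N < 2100 + 7 * H
  · exact Or.inl hs
  · right
    push Not at hs
    have hp := ff_primes N (by omega) (by omega)
    have hd := det N H (6 * H) (by omega) (by omega) hN.2 le_rfl (by omega)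
    have hpr := per (N % M) M (N / M) (6 * H) (fun k hk1 hk2 => by
      rw [hM]
      unfold Nat.lcmUpto
      have hb := b_le k
      exact Finset.dvd_lcm (b := k + b k) (f := id) (mem_Icc.2 ⟨by omega, by omega⟩)) (6 * H) (by omega) le_rfl
    rw [Nat.mod_add_div] at hpr
    have e : ∀ c : ℕ, ((M : ℤ) * ((N / M + 1 : ℕ) : ℤ) + (aa (N % M) (6 * H) + (6 * H : ℕ) - M) + c).toNat = ff N + c := by
      intro c
      have e1 : (M : ℤ) * ((N / M + 1 : ℕ) : ℤ) + (aa (N % M) (6 * H) + (6 * H : ℕ) - M) + c = ((ff N + c : ℕ) : ℤ) := by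
        push_cast at hd hpr ⊢
        linarith
      rw [e1, Int.toNat_natCast]
    rw [mem_filter, mem_Icc]
    refine ⟨hN.1, ?_, ?_, ?_⟩
    · have := e 1
      push_cast at this ⊢
      rw [this]; exact hp.1
    · have := e 3
      push_cast at this ⊢
      rw [this]; exact hp.2.1
    · have := e 7
      push_cast at this ⊢
      rw [this]; exact hp.2.2

/-- the sum over the classes -/
lemma cls_sum (X M : ℕ) (hM : 1 ≤ M) (Q : ℕ → ℕ → Prop) [∀ r n, Decidable (Q r n)] (Z : ℕ) (hZ : X / M + 1 ≤ Z) (E : ℝ)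
    (hE : ∀ r < M, (((Icc 1 Z).filter (fun n => Q r n)).card : ℝ) ≤ E) :
    (((Icc 6 X).filter (fun N : ℕ => Q (N % M) (N / M + 1))).card : ℝ) ≤ M * E := by
  have h1 : ((Icc 6 X).filter (fun N : ℕ => Q (N % M) (N / M + 1))).card ≤
      ((range M).biUnion (fun r => ((Icc 1 Z).filter (fun n => Q r n)).image (fun n => (r, n)))).card := by
    apply card_le_card_of_injOn (fun N => (N % M, N / M + 1))
    · intro N hN
      rw [mem_coe, mem_filter, mem_Icc] at hN
      rw [mem_coe, mem_biUnion]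
      refine ⟨N % M, mem_range.2 (Nat.mod_lt _ hM), ?_⟩
      rw [mem_image]
      refine ⟨N / M + 1, ?_, rfl⟩
      rw [mem_filter, mem_Icc]
      have := Nat.div_le_div_right (c := M) hN.1.2
      exact ⟨⟨Nat.succ_le_succ (Nat.zero_le _), (Nat.succ_le_succ this).trans hZ⟩, hN.2⟩
    · intro N _ N' _ h
      simp only [Prod.mk.injEq] at h
      rw [← Nat.mod_add_div N M, ← Nat.mod_add_div N' M, h.1]
      congr 2
      omega
  calc (((Icc 6 X).filter (fun N : ℕ => Q (N % M) (N / M + 1))).card : ℝ)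
      ≤ (((range M).biUnion (fun r => ((Icc 1 Z).filter (fun n => Q r n)).image (fun n => (r, n)))).card : ℝ) := by
        exact_mod_cast h1
    _ ≤ ∑ r ∈ range M, ((((Icc 1 Z).filter (fun n => Q r n)).image (fun n => (r, n))).card : ℝ) := by
        exact_mod_cast card_biUnion_le
    _ ≤ ∑ _r ∈ range M, E := by
        apply sum_le_sum
        intro r hr
        refine le_trans ?_ (hE r (mem_range.1 hr))
        exact_mod_cast card_image_le
    _ = M * E := by rw [sum_const, card_range, nsmul_eq_mul]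

open Classical in
theorem main : ∃ C : ℝ, 1 ≤ C ∧ ∀ᶠ X : ℕ in atTop, ∀ H : ℕ, 3 ≤ H → (H : ℝ) ≤ Real.log X / 100 →
    (((Icc 6 X).filter (fun N : ℕ => N ≤ ff N + H)).card : ℝ) ≤ C * Real.log H ^ C * (X / Real.log X ^ 3) := by
  obtain ⟨C, hC1, hC⟩ := cls
  obtain ⟨Y0, hY0⟩ := eventually_atTop.1 hC
  have hlog : Tendsto (fun n : ℕ => Real.log n) atTop atTop := Real.tendsto_log_atTop.comp tendsto_natCast_atTop_atTop
  have hsq : Tendsto (fun n : ℕ => Real.sqrt n) atTop atTop := Real.tendsto_sqrt_atTop.comp tendsto_natCast_atTop_atTop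
  have hsm : ∀ᶠ X : ℕ in atTop, Real.log X ^ 4 ≤ 1 / 3000 * (X : ℝ) := by
    have := (tendsto_natCast_atTop_atTop (R := ℝ)).eventually
      ((Real.isLittleO_pow_log_id_atTop (n := 4)).def (show (0 : ℝ) < 1 / 3000 by norm_num))
    filter_upwards [this, eventually_ge_atTop 1] with X hX hX1
    have hl : 0 ≤ Real.log X := Real.log_natCast_nonneg X
    simp only [id, Real.norm_eq_abs] at hX
    rwa [abs_of_nonneg (by positivity), abs_of_nonneg (Nat.cast_nonneg X)] at hX
  refine ⟨(16 * C + 1) * 3 ^ C, ?_, ?_⟩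
  · have h1 : (1 : ℝ) ≤ 3 ^ C := Real.one_le_rpow (by norm_num) (by linarith)
    nlinarith
  filter_upwards [hlog.eventually_ge_atTop 300, hsq.eventually_ge_atTop Y0, hsm, eventually_ge_atTop 3]
    with X hX1 hX2 hX3 hX4 H hH hHX
  set L := Real.log X with hL
  have hL0 : 0 < L := by linarith
  have hXr : (3 : ℝ) ≤ X := by exact_mod_cast hX4
  have hX0 : (0 : ℝ) < X := by linarith
  have hHr : (3 : ℝ) ≤ H := by exact_mod_cast hH
  set T := 6 * H + 6 with hT
  set M := Nat.lcmUpto T with hM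
  have hM1 : 1 ≤ M := Nat.lcmUpto_pos T
  have hMr : (0 : ℝ) < M := by exact_mod_cast hM1
  have hlM : Real.log M ≤ L / 2 := by
    refine (lcm_bd T).trans ?_
    rw [hT]
    push_cast
    linarith
  have hMX : (M : ℝ) ≤ Real.sqrt X := by
    have h1 : Real.log M ≤ Real.log (Real.sqrt X) := by rw [Real.log_sqrt hX0.le]; exact hlM
    exact (Real.log_le_log_iff hMr (Real.sqrt_pos.2 hX0)).1 h1
  have hss : Real.sqrt X * Real.sqrt X = X := Real.mul_self_sqrt hX0.le
  have hs1 : 1 ≤ Real.sqrt X := by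
    rw [Real.one_le_sqrt]; linarith
  have hXM : Real.sqrt X ≤ X / M := by
    rw [le_div_iff₀ hMr]
    calc Real.sqrt X * M ≤ Real.sqrt X * Real.sqrt X := by gcongr
      _ = X := hss
  set Y : ℝ := X / M + 1 with hY
  have hYs : Real.sqrt X ≤ Y := by linarith
  have hlY : L / 2 ≤ Real.log Y := by
    rw [hL, ← Real.log_sqrt hX0.le]
    exact Real.log_le_log (by linarith) hYs
  have hlT : Real.log T ≤ 3 * Real.log H := by
    rw [show (3 : ℝ) * Real.log H = Real.log ((H : ℝ) ^ 3) by rw [Real.log_pow]; norm_num]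
    apply Real.log_le_log (by rw [hT]; positivity)
    rw [hT]
    push_cast
    nlinarith [mul_nonneg (by linarith : (0 : ℝ) ≤ (H : ℝ) - 3) (by linarith : (0 : ℝ) ≤ H), sq_nonneg ((H : ℝ) - 3)]
  have hlH : 1 ≤ Real.log H := by
    rw [← Real.log_exp 1]
    apply Real.log_le_log (Real.exp_pos _)
    have := Real.exp_one_lt_d9
    linarith
  have hlT0 : 0 ≤ Real.log T := Real.log_natCast_nonneg T
  have hpow : Real.log T ^ C ≤ 3 ^ C * Real.log H ^ C := by
    rw [← Real.mul_rpow (by norm_num) (by linarith)]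
    exact Real.rpow_le_rpow hlT0 hlT (by linarith)
  have hHC : 1 ≤ Real.log H ^ C := Real.one_le_rpow hlH (by linarith)
  have h3C : (1 : ℝ) ≤ 3 ^ C := Real.one_le_rpow (by norm_num) (by linarith)
  have hcl := hY0 Y (hX2.trans hYs) M T hM1 (by omega) (fun p hp hpM => by
    have h1 : p ∈ M.primeFactors := Nat.mem_primeFactors.2 ⟨hp, hpM, by omega⟩
    rw [hM, Nat.primeFactors_lcmUpto, Nat.mem_primesLE] at h1
    exact h1.1)
  have hYb : Y / Real.log Y ^ 3 ≤ 16 * ((X / M) / L ^ 3) := by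
    have h1 : (1 : ℝ) ≤ X / M := hs1.trans hXM
    calc Y / Real.log Y ^ 3 ≤ (2 * (X / M)) / (L / 2) ^ 3 := by
          apply div_le_div₀ (by positivity) (by rw [hY]; linarith) (by positivity)
          exact pow_le_pow_left₀ (by positivity) hlY 3
      _ = 16 * ((X / M) / L ^ 3) := by field_simp; norm_num
  set E : ℝ := C * Real.log T ^ C * (16 * ((X / M) / L ^ 3)) with hE
  have hsum := cls_sum X M hM1 (fun r n => ((M : ℤ) * (n : ℤ) + (aa r (6 * H) + (6 * H : ℕ) - M) + 1).toNat.Prime ∧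
    ((M : ℤ) * (n : ℤ) + (aa r (6 * H) + (6 * H : ℕ) - M) + 3).toNat.Prime ∧
    ((M : ℤ) * (n : ℤ) + (aa r (6 * H) + (6 * H : ℕ) - M) + 7).toNat.Prime) ⌊Y⌋₊ (by
      apply Nat.le_floor
      push_cast
      rw [hY]
      have := Nat.cast_div_le (α := ℝ) (m := X) (n := M)
      linarith) E (by
      intro r _
      refine (hcl (aa r (6 * H) + (6 * H : ℕ) - M)).trans ?_
      rw [hE]
      exact mul_le_mul_of_nonneg_left hYb (by positivity))
  have hc1 := (card_le_card (incl X H M T hH rfl hM)).trans (card_union_le _ _)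
  rw [card_range] at hc1
  have hc2 : (((Icc 6 X).filter (fun N : ℕ => N ≤ ff N + H)).card : ℝ) ≤ (2100 + 7 * H : ℕ) + M * E := by
    refine le_trans (Nat.cast_le.2 hc1) ?_
    rw [Nat.cast_add]
    exact add_le_add le_rfl hsum
  have hME : M * E ≤ 16 * C * (3 ^ C * Real.log H ^ C) * (X / L ^ 3) := by
    have e1 : M * E = 16 * C * Real.log T ^ C * (X / L ^ 3) := by
      rw [hE]; field_simp
    rw [e1]
    gcongr
  have hsmall : ((2100 + 7 * H : ℕ) : ℝ) ≤ X / L ^ 3 := by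
    rw [le_div_iff₀ (by positivity)]
    push_cast
    have h1 : 2100 + 7 * (H : ℝ) ≤ 10 * L := by linarith
    calc (2100 + 7 * (H : ℝ)) * L ^ 3 ≤ 10 * L * L ^ 3 := by gcongr
      _ = 10 * L ^ 4 := by ring
      _ ≤ X := by linarith
  have hXL : 0 ≤ (X : ℝ) / L ^ 3 := by positivity
  have h9 : (X : ℝ) / L ^ 3 ≤ (3 ^ C * Real.log H ^ C) * (X / L ^ 3) := by
    apply le_mul_of_one_le_left hXL
    nlinarith
  have hexp : Real.log H ^ C ≤ Real.log H ^ ((16 * C + 1) * (3 : ℝ) ^ C) := by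
    apply Real.rpow_le_rpow_of_exponent_le hlH
    nlinarith
  calc (((Icc 6 X).filter (fun N : ℕ => N ≤ ff N + H)).card : ℝ) ≤ (2100 + 7 * H : ℕ) + M * E := hc2
    _ ≤ (3 ^ C * Real.log H ^ C) * (X / L ^ 3) + 16 * C * (3 ^ C * Real.log H ^ C) * (X / L ^ 3) := by linarith
    _ = (16 * C + 1) * 3 ^ C * Real.log H ^ C * (X / L ^ 3) := by ring
    _ ≤ (16 * C + 1) * 3 ^ C * Real.log H ^ ((16 * C + 1) * (3 : ℝ) ^ C) * (X / L ^ 3) := by
        apply mul_le_mul_of_nonneg_right _ hXL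
        apply mul_le_mul_of_nonneg_left hexp
        positivity

end Pool.Agent.Helper82K9.GR
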